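import Pool.Agent.W2helper8.ZQ.Stm

/-!
Project ZQ (helper8), `MP_aa9ae4_nt`, piece L2.
-/

set_option autoImplicit false

namespace Pool.Agent.W2helper87.ZQ

open Finset Filter Topology MeasureTheory Complex
open Pool.Agent.W2helper8.ZQ
open Pool.Agent.H306R2 (dv)

noncomputable section

lemma summ54 : Summable (fun n : ℕ => (n : ℝ) ^ (-(5 / 4) : ℝ)) :=
  Real.summable_nat_rpow.2 (by norm_num)

lemma ev_log (c : ℝ) : ∀ᶠ T : ℝ in atTop, c ≤ Real.log T :=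
  Real.tendsto_log_atTop.eventually_ge_atTop c

/-- the coefficients of the difference -/
def cf (b : ℝ) (v : ℕ → ℝ) (Y : ℕ) (n : ℕ) : ℝ := dv b n * v n / n - if n ≤ Y then dv b n / n else 0

lemma diff_eq (b a : ℝ) (v : ℕ → ℝ) (Y M : ℕ) (h : Y ≤ M) (t : ℝ) :
    (∑ n ∈ Icc 1 M, ((dv b n * v n / n : ℝ) : ℂ) * e (-(a * Real.log n * t))) - AA b a Y t =
      ∑ n ∈ Icc 1 M, ((cf b v Y n : ℝ) : ℂ) * e (-(a * Real.log n * t)) := by
  have h2 : AA b a Y t = ∑ n ∈ Icc 1 M, ((if n ≤ Y then dv b n / n else 0 : ℝ) : ℂ) * e (-(a * Real.log n * t)) := by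
    unfold AA
    have h3 : Icc 1 Y = (Icc 1 M).filter (fun n => n ≤ Y) := by
      ext n
      simp only [mem_Icc, mem_filter]
      omega
    rw [h3, sum_filter]
    refine sum_congr rfl fun n _ => ?_
    split_ifs
    · rfl
    · simp
  rw [h2, ← sum_sub_distrib]
  refine sum_congr rfl fun n _ => ?_
  unfold cf
  push_cast
  ring

lemma cf_sq (b C E : ℝ) (v : ℕ → ℝ) (Y n : ℕ) (hn : 1 ≤ n) (hC : 0 < C)
    (hd : |dv b n| ≤ C * (n : ℝ) ^ (1 / 4 : ℝ)) (hv : |v n| ≤ 1)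
    (h1 : n ≤ Y → (v n - 1) ^ 2 ≤ E) (h2 : Y < n → (n : ℝ) ^ (-(1 / 4) : ℝ) ≤ E) :
    cf b v Y n ^ 2 ≤ C ^ 2 * E * (n : ℝ) ^ (-(5 / 4) : ℝ) := by
  have hn0 : (0 : ℝ) < n := by exact_mod_cast hn
  have hn1 : (1 : ℝ) ≤ n := by exact_mod_cast hn
  have hd2 : dv b n ^ 2 ≤ C ^ 2 * (n : ℝ) ^ (1 / 2 : ℝ) := by
    have h3 := pow_le_pow_left₀ (abs_nonneg _) hd 2
    rw [sq_abs, mul_pow, ← Real.rpow_natCast ((n : ℝ) ^ (1 / 4 : ℝ)), ← Real.rpow_mul hn0.le] at h3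
    norm_num at h3 ⊢
    exact h3
  have hn2 : (n : ℝ) ^ (1 / 2 : ℝ) / (n : ℝ) ^ 2 = (n : ℝ) ^ (-(3 / 2) : ℝ) := by
    rw [← Real.rpow_natCast (n : ℝ) 2, ← Real.rpow_sub hn0]
    norm_num
  have hd3 : (dv b n / n) ^ 2 ≤ C ^ 2 * (n : ℝ) ^ (-(3 / 2) : ℝ) := by
    rw [div_pow, ← hn2]
    rw [← mul_div_assoc]
    gcongr
  by_cases hY : n ≤ Y
  · have h4 : cf b v Y n = dv b n / n * (v n - 1) := by
      unfold cf
      rw [if_pos hY]
      ring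
    rw [h4, mul_pow]
    have h5 : (n : ℝ) ^ (-(3 / 2) : ℝ) ≤ (n : ℝ) ^ (-(5 / 4) : ℝ) :=
      Real.rpow_le_rpow_of_exponent_le hn1 (by norm_num)
    calc (dv b n / n) ^ 2 * (v n - 1) ^ 2 ≤ (C ^ 2 * (n : ℝ) ^ (-(5 / 4) : ℝ)) * E := by
          refine mul_le_mul (hd3.trans ?_) (h1 hY) (sq_nonneg _) (by positivity)
          gcongr
      _ = C ^ 2 * E * (n : ℝ) ^ (-(5 / 4) : ℝ) := by ring
  · have hY' : Y < n := not_le.1 hY
    have h4 : cf b v Y n = dv b n / n * v n := by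
      unfold cf
      rw [if_neg hY]
      ring
    rw [h4, mul_pow]
    have h6 : v n ^ 2 ≤ 1 := by
      rw [← sq_abs]
      exact pow_le_one₀ (abs_nonneg _) hv
    have h5 : (n : ℝ) ^ (-(3 / 2) : ℝ) = (n : ℝ) ^ (-(1 / 4) : ℝ) * (n : ℝ) ^ (-(5 / 4) : ℝ) := by
      rw [← Real.rpow_add hn0]
      norm_num
    calc (dv b n / n) ^ 2 * v n ^ 2 ≤ (C ^ 2 * (n : ℝ) ^ (-(3 / 2) : ℝ)) * 1 :=
          mul_le_mul hd3 h6 (sq_nonneg _) (by positivity)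
      _ = C ^ 2 * (n : ℝ) ^ (-(1 / 4) : ℝ) * (n : ℝ) ^ (-(5 / 4) : ℝ) := by rw [h5]; ring
      _ ≤ C ^ 2 * E * (n : ℝ) ^ (-(5 / 4) : ℝ) := by
          gcongr
          exact h2 hY'

lemma poly_cont (a : ℝ) (M : ℕ) (c : ℕ → ℝ) :
    Continuous (fun t : ℝ => ∑ n ∈ Icc 1 M, ((c n : ℝ) : ℂ) * e (-(a * Real.log n * t))) := by
  refine continuous_finsetSum _ fun n _ => ?_
  exact continuous_const.mul (e_cont.comp (by fun_prop))

theorem p_l2 (h1 : S_ZE) (h2 : S_MVT) (h3 : S_DV) : S_L2 := by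
  intro b a K ha hK
  obtain ⟨C, hC, hdv⟩ := h3 b (1 / 4) (by norm_num)
  obtain ⟨KM, hKM, hmv⟩ := h2 a ha
  refine ⟨4 * (K + 1), by positivity, ?_⟩
  set S : ℝ := ∑' n : ℕ, (n : ℝ) ^ (-(5 / 4) : ℝ) with hS
  have hS0 : 0 ≤ S := tsum_nonneg fun n => by positivity
  filter_upwards [h1 b a (K + 1) (4 * (K + 1)) ha, ev_log 1, ev_log (5 + 2 * KM * C ^ 2 * S), eventually_ge_atTop (2 : ℝ)]
    with T hT hL1 hL2 hT2
  obtain ⟨M, v, hM, hv, hv1, hap⟩ := hT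
  set L := Real.log T with hL
  set Y : ℕ := ⌊L ^ (4 * (K + 1))⌋₊ with hY
  set E : ℝ := L ^ (-(K + 1)) with hE
  have hL0 : 0 < L := by linarith
  have hE0 : 0 < E := Real.rpow_pos_of_pos hL0 _
  have hE1 : E ≤ 1 := Real.rpow_le_one_of_one_le_of_nonpos hL1 (by linarith)
  have hYM : Y ≤ M := by
    rcases Nat.eq_zero_or_pos Y with h0 | h0
    · omega
    · exact (hv1 Y h0 (Nat.floor_le (by positivity))).1
  -- coefficients
  have hco : ∀ n ∈ Icc 1 M, cf b v Y n ^ 2 ≤ C ^ 2 * E * (n : ℝ) ^ (-(5 / 4) : ℝ) := by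
    intro n hn
    rw [mem_Icc] at hn
    refine cf_sq b C E v Y n hn.1 hC (hdv n hn.1) (hv n) ?_ ?_
    · intro hnY
      have h5 : (n : ℝ) ≤ L ^ (4 * (K + 1)) := (Nat.cast_le.2 hnY).trans (Nat.floor_le (by positivity))
      have h6 := (hv1 n hn.1 h5).2
      rw [← sq_abs]
      have h7 := pow_le_pow_left₀ (abs_nonneg _) h6 2
      refine h7.trans ?_
      nlinarith
    · intro hnY
      have h5 : L ^ (4 * (K + 1)) < n := (Nat.floor_lt (by positivity)).1 hnY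
      have h6 : (n : ℝ) ^ (-(1 / 4) : ℝ) ≤ (L ^ (4 * (K + 1))) ^ (-(1 / 4) : ℝ) :=
        Real.rpow_le_rpow_of_nonpos (by positivity) h5.le (by norm_num)
      refine h6.trans (le_of_eq ?_)
      rw [← Real.rpow_mul hL0.le, hE]
      congr 1
      ring
  have hsum : ∑ n ∈ Icc 1 M, cf b v Y n ^ 2 ≤ C ^ 2 * E * S := by
    calc ∑ n ∈ Icc 1 M, cf b v Y n ^ 2 ≤ ∑ n ∈ Icc 1 M, C ^ 2 * E * (n : ℝ) ^ (-(5 / 4) : ℝ) := sum_le_sum hco
      _ = C ^ 2 * E * ∑ n ∈ Icc 1 M, (n : ℝ) ^ (-(5 / 4) : ℝ) := by rw [mul_sum]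
      _ ≤ C ^ 2 * E * S := by
          gcongr
          exact summ54.sum_le_tsum _ fun n _ => by positivity
  have hint := hmv T M (cf b v Y) hT2 hM
  -- the integral
  have hab : T / 2 ≤ 3 * T := by linarith
  have hpc := poly_cont a M (cf b v Y)
  have hI2 : IntervalIntegrable (fun t : ℝ => 2 * E ^ 2 + 2 * ‖∑ n ∈ Icc 1 M, ((cf b v Y n : ℝ) : ℂ) *
      e (-(a * Real.log n * t))‖ ^ 2) volume (T / 2) (3 * T) := by
    apply Continuous.intervalIntegrable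
    exact continuous_const.add (continuous_const.mul (hpc.norm.pow 2))
  have hI1 : IntervalIntegrable (fun t : ℝ => (‖riemannZeta (1 + a * t * I)‖ ^ b - ‖AA b a Y t‖) ^ 2)
      volume (T / 2) (3 * T) := by
    apply ContinuousOn.intervalIntegrable
    rw [Set.uIcc_of_le hab]
    intro t ht
    have ht0 : 0 < t := by have := ht.1; linarith
    exact (((zpow_contAt b ha ht0).sub (AA_cont b a Y).norm.continuousAt).pow 2).continuousWithinAt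
  have hmono : ∫ t in (T / 2)..(3 * T), (‖riemannZeta (1 + a * t * I)‖ ^ b - ‖AA b a Y t‖) ^ 2 ≤
      ∫ t in (T / 2)..(3 * T), (2 * E ^ 2 + 2 * ‖∑ n ∈ Icc 1 M, ((cf b v Y n : ℝ) : ℂ) *
      e (-(a * Real.log n * t))‖ ^ 2) := by
    refine intervalIntegral.integral_mono_on hab hI1 hI2 ?_
    intro t ht
    have h5 := hap t ht
    rw [← diff_eq b a v Y M hYM t]
    set P := ∑ n ∈ Icc 1 M, ((dv b n * v n / n : ℝ) : ℂ) * e (-(a * Real.log n * t)) with hP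
    have h6 : |‖P‖ - ‖AA b a Y t‖| ≤ ‖P - AA b a Y t‖ := abs_norm_sub_norm_le _ _
    have h7 : (‖riemannZeta (1 + a * t * I)‖ ^ b - ‖P‖) ^ 2 ≤ E ^ 2 := by
      rw [← sq_abs]
      exact pow_le_pow_left₀ (abs_nonneg _) h5 2
    have h8 : (‖P‖ - ‖AA b a Y t‖) ^ 2 ≤ ‖P - AA b a Y t‖ ^ 2 := by
      rw [← sq_abs]
      exact pow_le_pow_left₀ (abs_nonneg _) h6 2
    have h9 : (‖riemannZeta (1 + a * t * I)‖ ^ b - ‖AA b a Y t‖) ^ 2 ≤
        2 * (‖riemannZeta (1 + a * t * I)‖ ^ b - ‖P‖) ^ 2 + 2 * (‖P‖ - ‖AA b a Y t‖) ^ 2 := by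
      nlinarith [sq_nonneg ((‖riemannZeta (1 + a * t * I)‖ ^ b - ‖P‖) - (‖P‖ - ‖AA b a Y t‖))]
    linarith
  have hval : ∫ t in (T / 2)..(3 * T), (2 * E ^ 2 + 2 * ‖∑ n ∈ Icc 1 M, ((cf b v Y n : ℝ) : ℂ) *
      e (-(a * Real.log n * t))‖ ^ 2) = 5 * T * E ^ 2 + 2 * ∫ t in (T / 2)..(3 * T), ‖∑ n ∈ Icc 1 M,
        ((cf b v Y n : ℝ) : ℂ) * e (-(a * Real.log n * t))‖ ^ 2 := by
    rw [intervalIntegral.integral_add (by simp) (by
      apply Continuous.intervalIntegrable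
      exact continuous_const.mul (hpc.norm.pow 2)), intervalIntegral.integral_const,
      intervalIntegral.integral_const_mul]
    simp only [smul_eq_mul]
    ring
  rw [hval] at hmono
  have hfin : 5 * T * E ^ 2 + 2 * (KM * T * (C ^ 2 * E * S)) ≤ T * L ^ (-K) := by
    have h10 : L ^ (-K) = E * L := by
      rw [hE]
      nth_rewrite 3 [← Real.rpow_one L]
      rw [← Real.rpow_add hL0]
      congr 1
      ring
    rw [h10]
    have h11 : E ^ 2 ≤ E := by nlinarith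
    have hT0 : 0 < T := by linarith
    calc 5 * T * E ^ 2 + 2 * (KM * T * (C ^ 2 * E * S)) ≤ 5 * T * E + 2 * (KM * T * (C ^ 2 * E * S)) := by
          gcongr
      _ = T * E * (5 + 2 * KM * C ^ 2 * S) := by ring
      _ ≤ T * E * L := by gcongr
      _ = T * (E * L) := by ring
  refine hmono.trans (le_trans ?_ hfin)
  have h12 : KM * T * ∑ n ∈ Icc 1 M, cf b v Y n ^ 2 ≤ KM * T * (C ^ 2 * E * S) := by
    have hT0 : 0 < T := by linarith
    gcongr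
  linarith

end

end Pool.Agent.W2helper87.ZQ
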