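import Pool.Agent.W2helper8.ZQ.Stm

/-!
Project ZQ (helper8), `MP_aa9ae4_nt`, piece WL2.
-/

set_option autoImplicit false

namespace Pool.Agent.W2helper87.ZQ

open Finset Filter Topology MeasureTheory Complex
open Pool.Agent.W2helper8.ZQ
open Pool.Agent.H306R2 (dv)

noncomputable section

lemma ev_log' (c : ℝ) : ∀ᶠ T : ℝ in atTop, c ≤ Real.log T :=
  Real.tendsto_log_atTop.eventually_ge_atTop c

/-- the size of the polynomial -/
lemma AA_le (b a C ε : ℝ) (hε : 0 < ε) (hC : 0 < C)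
    (hd : ∀ n : ℕ, 1 ≤ n → |dv b n| ≤ C * (n : ℝ) ^ ε) (Y : ℕ) (t : ℝ) :
    ‖AA b a Y t‖ ≤ C * (∑' n : ℕ, (n : ℝ) ^ (-(1 + ε))) * (Y : ℝ) ^ (2 * ε) := by
  unfold AA
  have hs : Summable (fun n : ℕ => (n : ℝ) ^ (-(1 + ε))) := Real.summable_nat_rpow.2 (by linarith)
  calc ‖∑ n ∈ Icc 1 Y, ((dv b n / n : ℝ) : ℂ) * e (-(a * Real.log n * t))‖
      ≤ ∑ n ∈ Icc 1 Y, C * (Y : ℝ) ^ (2 * ε) * (n : ℝ) ^ (-(1 + ε)) := by
        refine norm_sum_le_of_le _ fun n hn => ?_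
        rw [mem_Icc] at hn
        have hn0 : (0 : ℝ) < n := by exact_mod_cast hn.1
        have hnY : (n : ℝ) ≤ Y := by exact_mod_cast hn.2
        rw [norm_mul, norm_e, mul_one, Complex.norm_real, Real.norm_eq_abs, abs_div, abs_of_pos hn0,
          div_le_iff₀ hn0]
        refine (hd n hn.1).trans ?_
        have h1 : (n : ℝ) ^ ε = (n : ℝ) ^ (2 * ε) * (n : ℝ) ^ (-(1 + ε)) * n := by
          nth_rewrite 4 [← Real.rpow_one (n : ℝ)]
          rw [← Real.rpow_add hn0, ← Real.rpow_add hn0]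
          congr 1
          ring
        rw [h1]
        have h2 : (n : ℝ) ^ (2 * ε) ≤ (Y : ℝ) ^ (2 * ε) := Real.rpow_le_rpow hn0.le hnY (by linarith)
        calc C * ((n : ℝ) ^ (2 * ε) * (n : ℝ) ^ (-(1 + ε)) * n)
            ≤ C * ((Y : ℝ) ^ (2 * ε) * (n : ℝ) ^ (-(1 + ε)) * n) := by gcongr
          _ = _ := by ring
    _ = C * (Y : ℝ) ^ (2 * ε) * ∑ n ∈ Icc 1 Y, (n : ℝ) ^ (-(1 + ε)) := by rw [mul_sum]
    _ ≤ C * (Y : ℝ) ^ (2 * ε) * ∑' n : ℕ, (n : ℝ) ^ (-(1 + ε)) := by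
        gcongr
        exact hs.sum_le_tsum _ fun n _ => by positivity
    _ = _ := by ring

theorem p_wl2 (h1 : S_L2) (h2 : S_M4) (h3 : S_ZR) (h4 : S_DV) : S_WL2 := by
  intro b a ha
  obtain ⟨δ, K₀, hδ, hδ1, hK0, hzr⟩ := h3 b a ha
  obtain ⟨KM, hKM, hm4⟩ := h2
  obtain ⟨B, hB, hl2⟩ := h1 b a (2 * (K₀ + 2) + 4) ha (by positivity)
  refine ⟨B, hB, fun ε hε => ?_⟩
  obtain ⟨C, hC, hdv⟩ := h4 b (1 / (2 * B)) (by positivity)
  set S : ℝ := ∑' n : ℕ, (n : ℝ) ^ (-(1 + 1 / (2 * B))) with hS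
  have hS0 : 0 ≤ S := tsum_nonneg fun n => by positivity
  filter_upwards [hzr, hm4, hl2, ev_log' 1, ev_log' (C * S), ev_log' ((KM + 1) / ε),
    eventually_ge_atTop (1 : ℝ)] with T hz hm hl hL1 hL2 hL3 hT1
  set L := Real.log T with hL
  set Y : ℕ := ⌊L ^ B⌋₊ with hY
  have hL0 : 0 < L := by linarith
  have hT0 : 0 < T := by linarith
  have hab : T / 2 ≤ 3 * T := by linarith
  have hY1 : (Y : ℝ) ≤ L ^ B := Nat.floor_le (by positivity)
  set R : ℝ := K₀ + 2 with hR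
  have hLR : 0 < L ^ R := Real.rpow_pos_of_pos hL0 _
  -- size of the polynomial
  have hAA : ∀ t : ℝ, ‖AA b a Y t‖ ≤ L ^ R := by
    intro t
    refine (AA_le b a C (1 / (2 * B)) (by positivity) hC hdv Y t).trans ?_
    have h5 : (Y : ℝ) ^ (2 * (1 / (2 * B))) ≤ L := by
      calc (Y : ℝ) ^ (2 * (1 / (2 * B))) ≤ (L ^ B) ^ (2 * (1 / (2 * B))) :=
            Real.rpow_le_rpow (by positivity) hY1 (by positivity)
        _ = L := by
            rw [← Real.rpow_mul hL0.le]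
            have : B * (2 * (1 / (2 * B))) = 1 := by field_simp
            rw [this, Real.rpow_one]
    calc C * S * (Y : ℝ) ^ (2 * (1 / (2 * B))) ≤ L * L := by
          refine mul_le_mul hL2 h5 (by positivity) hL0.le
      _ = L ^ (2 : ℝ) := by
          rw [Real.rpow_two]
          ring
      _ ≤ L ^ R := Real.rpow_le_rpow_of_exponent_le hL1 (by linarith)
  have hZ : ∀ t ∈ Set.Icc (T / 2) (3 * T), ‖riemannZeta (1 + a * t * I)‖ ^ b ≤ L ^ R := by
    intro t ht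
    have him : (1 + a * t * I : ℂ).im = a * t := by simp
    have hre : (1 + a * t * I : ℂ).re = 1 := by simp
    have h5 := (hz (1 + a * t * I) (by rw [him]; nlinarith [ht.1]) (by rw [him]; nlinarith [ht.2])
      (by rw [hre]; linarith [Real.rpow_pos_of_pos hL0 (δ - 1)]) (by rw [hre]; norm_num)).2
    exact h5.trans (Real.rpow_le_rpow_of_exponent_le hL1 (by linarith))
  -- notation
  set U : ℝ → ℝ := fun t => (‖riemannZeta (1 + a * t * I)‖ ^ b - ‖AA b a Y t‖) ^ 2 with hU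
  have hUc : ContinuousOn U (Set.Icc (T / 2) (3 * T)) := by
    intro t ht
    have ht0 : 0 < t := by have := ht.1; linarith
    exact (((zpow_contAt b ha ht0).sub (AA_cont b a Y).norm.continuousAt).pow 2).continuousWithinAt
  have hU0 : ∀ t, 0 ≤ U t := fun t => sq_nonneg _
  have hU1 : ∀ t ∈ Set.Icc (T / 2) (3 * T), U t ≤ L ^ (2 * R) := by
    intro t ht
    have h5 := hZ t ht
    have h6 := hAA t
    have h7 : 0 ≤ ‖riemannZeta (1 + a * t * I)‖ ^ b := by positivity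
    have h8 : 0 ≤ ‖AA b a Y t‖ := norm_nonneg _
    have h9 : |‖riemannZeta (1 + a * t * I)‖ ^ b - ‖AA b a Y t‖| ≤ L ^ R := by
      rw [abs_le]
      constructor <;> linarith
    have h10 : L ^ (2 * R) = (L ^ R) ^ 2 := by
      rw [← Real.rpow_natCast (L ^ R), ← Real.rpow_mul hL0.le]
      congr 1
      push_cast
      ring
    rw [h10, hU]
    simp only
    rw [← sq_abs]
    exact pow_le_pow_left₀ (abs_nonneg _) h9 2
  have hL4 : 0 < L ^ (4 : ℝ) := Real.rpow_pos_of_pos hL0 _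
  have hL4' : L ^ (4 : ℝ) = L ^ 4 := by
    rw [← Real.rpow_natCast]
    norm_num
  have hI0 : IntervalIntegrable (fun t : ℝ => Z2 t * U t) volume (T / 2) (3 * T) := by
    apply ContinuousOn.intervalIntegrable
    rw [Set.uIcc_of_le hab]
    exact Z2_cont.continuousOn.mul hUc
  have hIZ : IntervalIntegrable (fun t : ℝ => (L ^ 4)⁻¹ * Z2 t ^ 2) volume (T / 2) (3 * T) := by
    apply Continuous.intervalIntegrable
    exact continuous_const.mul (Z2_cont.pow 2)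
  have hIU : IntervalIntegrable (fun t : ℝ => L ^ 4 * L ^ (2 * R) * U t) volume (T / 2) (3 * T) := by
    apply ContinuousOn.intervalIntegrable
    rw [Set.uIcc_of_le hab]
    exact continuousOn_const.mul hUc
  have hmono : ∫ t in (T / 2)..(3 * T), Z2 t * U t ≤
      ∫ t in (T / 2)..(3 * T), ((L ^ 4)⁻¹ * Z2 t ^ 2 + L ^ 4 * L ^ (2 * R) * U t) := by
    refine intervalIntegral.integral_mono_on hab hI0 (hIZ.add hIU) ?_
    intro t ht
    have h5 := hU0 t
    have h6 := hU1 t ht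
    have h7 := Z2_nonneg t
    have hp : 0 < L ^ 4 := by positivity
    have h8 : L ^ 4 * U t ^ 2 ≤ L ^ 4 * L ^ (2 * R) * U t := by
      have : U t ^ 2 ≤ L ^ (2 * R) * U t := by nlinarith
      calc L ^ 4 * U t ^ 2 ≤ L ^ 4 * (L ^ (2 * R) * U t) := by gcongr
        _ = _ := by ring
    refine le_trans ?_ (add_le_add le_rfl h8)
    have h9 : 0 ≤ (L ^ 4)⁻¹ * (Z2 t - L ^ 4 * U t) ^ 2 := by positivity
    have h10 : (L ^ 4)⁻¹ * (Z2 t - L ^ 4 * U t) ^ 2 = (L ^ 4)⁻¹ * Z2 t ^ 2 + L ^ 4 * U t ^ 2 - 2 * (Z2 t * U t) := by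
      field_simp
      ring
    have h11 : 0 ≤ Z2 t * U t := mul_nonneg h7 h5
    linarith
  rw [intervalIntegral.integral_add hIZ hIU, intervalIntegral.integral_const_mul,
    intervalIntegral.integral_const_mul] at hmono
  have hA : (L ^ 4)⁻¹ * ∫ t in (T / 2)..(3 * T), Z2 t ^ 2 ≤ KM * T := by
    have hp : 0 < L ^ 4 := by positivity
    calc (L ^ 4)⁻¹ * ∫ t in (T / 2)..(3 * T), Z2 t ^ 2 ≤ (L ^ 4)⁻¹ * (KM * (T * L ^ 4)) := by gcongr
      _ = KM * T := by field_simp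
  have hBd : L ^ 4 * L ^ (2 * R) * ∫ t in (T / 2)..(3 * T), U t ≤ T := by
    have h12 : ∫ t in (T / 2)..(3 * T), U t ≤ T * L ^ (-(2 * R + 4)) := hl
    calc L ^ 4 * L ^ (2 * R) * ∫ t in (T / 2)..(3 * T), U t ≤ L ^ 4 * L ^ (2 * R) * (T * L ^ (-(2 * R + 4))) := by
          have : 0 < L ^ (2 * R) := Real.rpow_pos_of_pos hL0 _
          gcongr
      _ = T * (L ^ (4 : ℝ) * L ^ (2 * R) * L ^ (-(2 * R + 4))) := by rw [hL4']; ring
      _ = T := by
          rw [← Real.rpow_add hL0, ← Real.rpow_add hL0]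
          have : 4 + 2 * R + -(2 * R + 4) = 0 := by ring
          rw [this, Real.rpow_zero, mul_one]
  have hfin : (KM + 1) * T ≤ ε * (T * L) := by
    rw [div_le_iff₀ hε] at hL3
    calc (KM + 1) * T ≤ (L * ε) * T := by gcongr
      _ = _ := by ring
  calc ∫ t in (T / 2)..(3 * T), Z2 t * (‖riemannZeta (1 + a * t * I)‖ ^ b - ‖AA b a Y t‖) ^ 2
      = ∫ t in (T / 2)..(3 * T), Z2 t * U t := rfl
    _ ≤ _ := hmono
    _ ≤ KM * T + T := add_le_add hA hBd
    _ = (KM + 1) * T := by ring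
    _ ≤ _ := hfin

end

end Pool.Agent.W2helper87.ZQ
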