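import Pool.Agent.W2helper8.ZQ.Stm

/-!
Project ZQ (helper8), `MP_aa9ae4_nt`, piece ZE.
-/

set_option autoImplicit false

namespace Pool.Agent.W2helper87.ZQ

open Finset Filter Topology MeasureTheory Complex
open Pool.Agent.W2helper8.ZQ
open Pool.Agent.H306R2 (dv)

noncomputable section

lemma ev_logc (c : ℝ) : ∀ᶠ T : ℝ in atTop, c ≤ Real.log T :=
  Real.tendsto_log_atTop.eventually_ge_atTop c

/-- powers of the logarithm are small -/
lemma ev_pow (c r : ℝ) : ∀ᶠ T : ℝ in atTop, c * Real.log T ^ r ≤ T ^ (1 / 4 : ℝ) := by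
  have h := (isLittleO_log_rpow_rpow_atTop r (show (0 : ℝ) < 1 / 4 by norm_num)).def
    (show (0 : ℝ) < 1 / (|c| + 1) by positivity)
  filter_upwards [h, ev_logc 1, eventually_ge_atTop (1 : ℝ)] with T hT hL hT1
  have hL0 : 0 ≤ Real.log T ^ r := Real.rpow_nonneg (by linarith) _
  have hT0 : 0 ≤ T ^ (1 / 4 : ℝ) := Real.rpow_nonneg (by linarith) _
  rw [Real.norm_of_nonneg hL0, Real.norm_of_nonneg hT0] at hT
  calc c * Real.log T ^ r ≤ (|c| + 1) * Real.log T ^ r := by
        refine mul_le_mul_of_nonneg_right ?_ hL0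
        linarith [le_abs_self c]
    _ ≤ (|c| + 1) * (1 / (|c| + 1) * T ^ (1 / 4 : ℝ)) := by gcongr
    _ = T ^ (1 / 4 : ℝ) := by field_simp

/-- the double logarithm is small -/
lemma ev_ll (c r : ℝ) (hr : 0 < r) : ∀ᶠ T : ℝ in atTop, c * Real.log (Real.log T) ≤ Real.log T ^ r := by
  have h : ∀ᶠ L : ℝ in atTop, c * Real.log L ≤ L ^ r := by
    have h := (isLittleO_log_rpow_atTop hr).def (show (0 : ℝ) < 1 / (|c| + 1) by positivity)
    filter_upwards [h, eventually_ge_atTop (1 : ℝ)] with L hL hL1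
    have h0 : 0 ≤ Real.log L := Real.log_nonneg hL1
    have h1 : 0 ≤ L ^ r := Real.rpow_nonneg (by linarith) _
    rw [Real.norm_of_nonneg h0, Real.norm_of_nonneg h1] at hL
    calc c * Real.log L ≤ (|c| + 1) * Real.log L := by
          refine mul_le_mul_of_nonneg_right ?_ h0
          linarith [le_abs_self c]
      _ ≤ (|c| + 1) * (1 / (|c| + 1) * L ^ r) := by gcongr
      _ = L ^ r := by field_simp
  exact Real.tendsto_log_atTop.eventually h

lemma cpow_e (n : ℕ) (hn : 1 ≤ n) (u : ℝ) :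
    (n : ℂ) ^ (-(1 + u * I)) = ((1 / n : ℝ) : ℂ) * e (-(u * Real.log n)) := by
  have hn0 : (0 : ℝ) < n := by exact_mod_cast hn
  have hnc : (n : ℂ) ≠ 0 := by exact_mod_cast hn0.ne'
  rw [Complex.cpow_def_of_ne_zero hnc, ← Complex.natCast_log]
  have h1 : (1 / n : ℝ) = Real.exp (-Real.log n) := by
    rw [Real.exp_neg, Real.exp_log hn0, one_div]
  rw [h1, Complex.ofReal_exp]
  unfold e
  rw [← Complex.exp_add]
  congr 1
  push_cast
  ring

lemma rpow_m2 (n : ℕ) : (n : ℝ) ^ (-2 : ℝ) = ((n : ℝ) ^ 2)⁻¹ := by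
  rw [Real.rpow_neg (by positivity), Real.rpow_two]

lemma summ2 : Summable (fun n : ℕ => (n : ℝ) ^ (-2 : ℝ)) := Real.summable_nat_rpow.2 (by norm_num)

theorem p_ze (h1 : S_ZE1) (h2 : S_VA) (h3 : S_DV) : S_ZE := by
  intro b a K B ha
  obtain ⟨-, hvv, hvneg, hvpos⟩ := h2
  obtain ⟨C, hC, hdv⟩ := h3 b 1 (by norm_num)
  set S : ℝ := ∑' n : ℕ, (n : ℝ) ^ (-2 : ℝ) with hS
  have hS0 : 0 ≤ S := tsum_nonneg fun n => by positivity
  filter_upwards [h1 b a (K + 1) ha, ev_logc 192, ev_pow 1 B, ev_pow (C * S) (K + 1),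
    ev_ll (2 * |B|) (1 / 2) (by norm_num), ev_ll (16 * |K|) 1 (by norm_num), eventually_ge_atTop (1 : ℝ)]
    with T hX hL hTB hTK hll hlK hT1
  obtain ⟨X, hX1, hXlo, hXhi, hXa⟩ := hX
  set L := Real.log T with hLdef
  have hT0 : 0 < T := by linarith
  have hL0 : 0 < L := by linarith
  have hL1 : 1 ≤ L := by linarith
  set Q : ℝ := T ^ (1 / 4 : ℝ) with hQ
  have hQ0 : 0 < Q := Real.rpow_pos_of_pos hT0 _
  have hlogQ : Real.log Q = L / 4 := by
    rw [hQ, Real.log_rpow hT0]
    ring
  set M : ℕ := ⌊Q⌋₊ with hM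
  have hlog1 : 0 ≤ Real.log L := Real.log_nonneg hL1
  refine ⟨M, fun n => vv (Real.log X - Real.log n), Nat.floor_le hQ0.le, ?_, ?_, ?_⟩
  · intro n
    rw [abs_le]
    have := hvv (Real.log X - Real.log n)
    constructor <;> linarith [this.1, this.2]
  · intro n hn1 hnB
    have hn0 : (0 : ℝ) < n := by exact_mod_cast hn1
    rw [one_mul] at hTB
    refine ⟨Nat.le_floor (hnB.trans hTB), ?_⟩
    have hlogn : Real.log n ≤ |B| * Real.log L := by
      calc Real.log n ≤ Real.log (L ^ B) := Real.log_le_log hn0 hnB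
        _ = B * Real.log L := Real.log_rpow hL0 B
        _ ≤ |B| * Real.log L := mul_le_mul_of_nonneg_right (le_abs_self B) hlog1
    have hLh : 0 < L ^ (1 / 2 : ℝ) := Real.rpow_pos_of_pos hL0 _
    have hy : L ^ (1 / 2 : ℝ) / 2 ≤ Real.log X - Real.log n := by linarith
    have hy0 : 0 ≤ Real.log X - Real.log n := by linarith
    have hsq : L / 4 ≤ (Real.log X - Real.log n) ^ 2 := by
      have h5 : (L ^ (1 / 2 : ℝ) / 2) ^ 2 ≤ (Real.log X - Real.log n) ^ 2 := by
        gcongr
      have h6 : (L ^ (1 / 2 : ℝ)) ^ 2 = L := by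
        rw [← Real.rpow_natCast, ← Real.rpow_mul hL0.le]
        norm_num
      rw [div_pow, h6] at h5
      linarith
    have h7 := hvpos _ hy0
    have h8 := (hvv (Real.log X - Real.log n)).2
    rw [abs_sub_comm, abs_of_nonneg (by linarith)]
    refine h7.trans ?_
    have h9 : L ^ (-K) = Real.exp (-(K * Real.log L)) := by
      rw [Real.rpow_def_of_pos hL0]
      congr 1
      ring
    rw [h9, Real.exp_le_exp]
    rw [Real.rpow_one] at hlK
    have h10 : K * Real.log L ≤ |K| * Real.log L := mul_le_mul_of_nonneg_right (le_abs_self K) hlog1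
    linarith
  · intro t ht
    set u : ℝ := a * t with hu
    have hu1 : u ∈ Set.Icc (a * T / 2) (3 * a * T) := by
      constructor
      · have := ht.1
        nlinarith
      · have := ht.2
        nlinarith
    have hap := hXa u hu1
    set g : ℕ → ℂ := fun n => ((dv b n * vv (Real.log X - Real.log n) : ℝ) : ℂ) * (n : ℂ) ^ (-(1 + u * I)) with hg
    have hSM : SM b X u = ∑' n, g n := rfl
    have hzeta : (1 + a * t * I : ℂ) = 1 + (u : ℂ) * I := by
      rw [hu]
      push_cast
      ring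
    -- the finite part
    have hfin : ∑ n ∈ range (M + 1), g n = ∑ n ∈ Icc 1 M,
        ((dv b n * vv (Real.log X - Real.log n) / n : ℝ) : ℂ) * e (-(a * Real.log n * t)) := by
      have hsub : Icc 1 M ⊆ range (M + 1) := by
        intro n hn
        rw [mem_Icc] at hn
        rw [mem_range]
        omega
      rw [← sum_subset hsub]
      · refine sum_congr rfl fun n hn => ?_
        rw [mem_Icc] at hn
        rw [hg]
        simp only
        rw [cpow_e n hn.1 u]
        have : u * Real.log n = a * Real.log n * t := by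
          rw [hu]
          ring
        rw [this]
        push_cast
        ring
      · intro n hn1 hn2
        rw [mem_range] at hn1
        rw [mem_Icc] at hn2
        have hn0 : n = 0 := by omega
        subst hn0
        simp [hg, dv]
    -- the terms of the tail
    have hterm : ∀ n : ℕ, M + 1 ≤ n → ‖g n‖ ≤ C * Q⁻¹ * (n : ℝ) ^ (-2 : ℝ) := by
      intro n hn
      have hnQ : Q < n := Nat.lt_of_floor_lt (by omega)
      have hn0 : (0 : ℝ) < n := by linarith
      have hn1 : 1 ≤ n := by omega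
      have hlogn : L / 4 < Real.log n := by
        rw [← hlogQ]
        exact Real.log_lt_log hQ0 hnQ
      set l := Real.log n with hl
      have hy : Real.log X - l ≤ -(l / 2) := by linarith
      have hy0 : Real.log X - l ≤ 0 := by linarith
      have hv := hvneg _ hy0
      have hv0 := (hvv (Real.log X - l)).1
      have hsq : (l / 2) ^ 2 ≤ (Real.log X - l) ^ 2 := by
        rw [← neg_sq (Real.log X - l)]
        gcongr
        linarith
      have hv3 : vv (Real.log X - l) ≤ Real.exp (-(3 * l)) := by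
        refine hv.trans ?_
        rw [Real.exp_le_exp]
        nlinarith
      have hexp : Real.exp (-(3 * l)) = ((n : ℝ) ^ 3)⁻¹ := by
        rw [Real.exp_neg]
        congr 1
        rw [show (3 : ℝ) * l = ((3 : ℕ) : ℝ) * l by norm_num, Real.exp_nat_mul, hl, Real.exp_log hn0]
      rw [hg]
      simp only
      rw [cpow_e n hn1 u, norm_mul, norm_mul, norm_e, mul_one, Complex.norm_real, Complex.norm_real,
        Real.norm_eq_abs, Real.norm_eq_abs, abs_mul, abs_of_nonneg hv0, abs_of_pos (by positivity : (0 : ℝ) < 1 / n),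
        rpow_m2]
      have hd := hdv n hn1
      rw [Real.rpow_one] at hd
      have hinv : (n : ℝ)⁻¹ ≤ Q⁻¹ := inv_anti₀ hQ0 hnQ.le
      calc |dv b n| * vv (Real.log X - Real.log n) * (1 / n)
          ≤ (C * n) * ((n : ℝ) ^ 3)⁻¹ * (1 / n) := by
            have : vv (Real.log X - Real.log n) ≤ ((n : ℝ) ^ 3)⁻¹ := by
              rw [← hexp]
              exact hv3
            gcongr
        _ = C * (n : ℝ)⁻¹ * ((n : ℝ) ^ 2)⁻¹ := by
            field_simp
        _ ≤ C * Q⁻¹ * ((n : ℝ) ^ 2)⁻¹ := by gcongr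
    have hsh : Summable (fun n : ℕ => C * Q⁻¹ * ((n + (M + 1) : ℕ) : ℝ) ^ (-2 : ℝ)) :=
      ((summable_nat_add_iff (f := fun n : ℕ => (n : ℝ) ^ (-2 : ℝ)) (M + 1)).2 summ2).mul_left _
    have hsg : Summable g := by
      rw [← summable_nat_add_iff (M + 1)]
      exact Summable.of_norm_bounded hsh fun n => hterm _ (by omega)
    have htail : ‖∑' n, g (n + (M + 1))‖ ≤ C * Q⁻¹ * S := by
      have h5 := tsum_of_norm_bounded hsh.hasSum (f := fun n => g (n + (M + 1))) fun n => hterm _ (by omega)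
      refine h5.trans ?_
      rw [tsum_mul_left]
      have h6 := summ2.sum_add_tsum_nat_add (M + 1)
      have h7 : 0 ≤ ∑ i ∈ range (M + 1), (i : ℝ) ^ (-2 : ℝ) := sum_nonneg fun i _ => by positivity
      have h8 : ∑' n : ℕ, ((n + (M + 1) : ℕ) : ℝ) ^ (-2 : ℝ) ≤ S := by
        rw [hS, ← h6]
        linarith
      gcongr
    have hsplit := hsg.sum_add_tsum_nat_add (M + 1)
    have hTKp : C * Q⁻¹ * S ≤ L ^ (-(K + 1)) := by
      rw [Real.rpow_neg hL0.le]
      have hLK : 0 < L ^ (K + 1) := Real.rpow_pos_of_pos hL0 _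
      have hgoal : C * Q⁻¹ * S = (C * S) / Q := by
        field_simp
      rw [hgoal, div_le_iff₀ hQ0, inv_mul_eq_div, le_div_iff₀ hLK]
      exact hTK
    have hdiff : |‖SM b X u‖ - ‖∑ n ∈ Icc 1 M,
        ((dv b n * vv (Real.log X - Real.log n) / n : ℝ) : ℂ) * e (-(a * Real.log n * t))‖| ≤ L ^ (-(K + 1)) := by
      refine (abs_norm_sub_norm_le _ _).trans ?_
      rw [hSM, ← hsplit, hfin, add_sub_cancel_left]
      exact htail.trans hTKp
    rw [hzeta]
    have hfinal : 2 * L ^ (-(K + 1)) ≤ L ^ (-K) := by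
      have h10 : L ^ (-K) = L ^ (-(K + 1)) * L := by
        nth_rewrite 3 [← Real.rpow_one L]
        rw [← Real.rpow_add hL0]
        congr 1
        ring
      rw [h10]
      have h11 : 0 < L ^ (-(K + 1)) := Real.rpow_pos_of_pos hL0 _
      nlinarith
    refine le_trans ?_ hfinal
    have h12 := abs_sub_le (‖riemannZeta (1 + (u : ℂ) * I)‖ ^ b) (‖SM b X u‖) (‖∑ n ∈ Icc 1 M,
        ((dv b n * vv (Real.log X - Real.log n) / n : ℝ) : ℂ) * e (-(a * Real.log n * t))‖)
    linarith

end

end Pool.Agent.W2helper87.ZQ
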